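import Pool.Agent.Work.MP_376faf_co_neps.FinalE

/-! A lower bound for the number of self-avoiding polygons on the square lattice, for all
perimeters: the correction to the exponential growth is at least `exp (-C n ^ ε)` for every
positive `ε`. -/

set_option autoImplicit false

namespace Pool.Agent.Results.MP_376faf_co.EpsLower

open Filter

/-- number of n-step self-avoiding walks on Z^2 from the origin -/
noncomputable def walks (n : ℕ) : ℕ :=
  Nat.card {f : Fin (n+1) → ℤ × ℤ // f 0 = 0 ∧ Function.Injective f ∧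
    ∀ i : Fin n, |(f i.succ).1 - (f i.castSucc).1| + |(f i.succ).2 - (f i.castSucc).2| = 1}

/-- number of self-avoiding polygons of perimeter 2n on Z^2 up to translation (n at least 2):
rooted oriented ones divided by 4n -/
noncomputable def polygons (n : ℕ) : ℝ :=
  (Nat.card {f : ZMod (2*n) → ℤ × ℤ // f 0 = 0 ∧ Function.Injective f ∧
    ∀ i : ZMod (2*n), |(f (i+1)).1 - (f i).1| + |(f (i+1)).2 - (f i).2| = 1} : ℝ) / (4 * (n:ℝ))

theorem result : ∃ μ : ℝ,
    Tendsto (fun n : ℕ => ((walks n : ℕ) : ℝ) ^ ((1:ℝ) / (n:ℝ))) atTop (nhds μ) ∧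
    ∀ ε : ℝ, 0 < ε → ∃ C : ℝ, 0 < C ∧ ∀ n : ℕ, 2 ≤ n →
      μ ^ (2 * n) * Real.exp (-(C * (n:ℝ) ^ ε)) ≤ polygons n := by
  obtain ⟨μ, h1, h2, h3⟩ := Pool.Agent.Work.MP_376faf_co_lower.exists_mu
  refine ⟨μ, h2, fun ε hε => ?_⟩
  obtain ⟨C, hC, hl⟩ := Pool.Agent.Work.MP_376faf_co_neps.lower_e h1 h2 h3 hε
  exact ⟨C, hC, hl⟩

end Pool.Agent.Results.MP_376faf_co.EpsLower
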